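import Pool.Agent.W795.DD.Stm

/-! DD-TC: closure properties of the classes `TC n` -/

set_option autoImplicit false

open MeasureTheory Set Filter Topology

namespace Pool.Agent.W174.DD

open Pool.Agent.W795.DD
open H459R3.NS (K3)

/-- coordinates -/
def eqv : K3 ≃ ℤ × ℤ × ℤ where
  toFun k := (k 0, k 1, k 2)
  invFun p := ![p.1, p.2.1, p.2.2]
  left_inv k := by funext i; fin_cases i <;> rfl
  right_inv p := rfl

theorem summable_int : Summable fun n : ℤ => 1 / (1 + (n : ℝ) ^ 2) := by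
  have h : Summable fun n : ℤ => |(n : ℝ)| ^ (-2 : ℝ) := Real.summable_abs_int_rpow (by norm_num)
  have h2 := h.add (summable_of_finite_support (f := fun n : ℤ => if n = 0 then (1 : ℝ) else 0)
    ((Set.finite_singleton (0 : ℤ)).subset fun n hn => by
      by_contra h
      exact hn (if_neg h)))
  refine Summable.of_nonneg_of_le (fun n => by positivity) (fun n => ?_) h2
  by_cases hn : n = 0
  · subst hn; simp
  · rw [if_neg hn, add_zero]
    have hn' : (n : ℝ) ≠ 0 := by exact_mod_cast hn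
    rw [Real.rpow_neg (abs_nonneg _), ← one_div, show (2 : ℝ) = ((2 : ℕ) : ℝ) by norm_num,
      Real.rpow_natCast, sq_abs]
    apply one_div_le_one_div_of_le (by positivity)
    linarith

theorem summable_K3 : Summable fun k : K3 =>
    (1 / (1 + (k 0 : ℝ) ^ 2)) * ((1 / (1 + (k 1 : ℝ) ^ 2)) * (1 / (1 + (k 2 : ℝ) ^ 2))) := by
  have h1 := summable_int.mul_of_nonneg summable_int (fun n => by positivity)
    (fun n => by positivity)
  have h2 := summable_int.mul_of_nonneg h1 (fun n => by positivity)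
    (fun p => by positivity)
  have h3 := (eqv.summable_iff (f := fun p : ℤ × ℤ × ℤ =>
    (1 / (1 + (p.1 : ℝ) ^ 2)) * ((1 / (1 + (p.2.1 : ℝ) ^ 2)) * (1 / (1 + (p.2.2 : ℝ) ^ 2))))).2 h2
  exact h3

theorem sq_nonneg' (k : K3) : 0 ≤ W785.DF.sq k := by
  unfold W785.DF.sq
  positivity

theorem one_le (k : K3) : 1 ≤ 1 + W785.DF.sq k := by
  have := sq_nonneg' k
  linarith

/-- the weight -/
noncomputable def wg (k : K3) : ℝ := ((1 + W785.DF.sq k) ^ 3)⁻¹

theorem wg_pos (k : K3) : 0 < wg k := by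
  unfold wg
  have := one_le k
  positivity

theorem summable_wg : Summable wg := by
  refine Summable.of_nonneg_of_le (fun k => (wg_pos k).le) (fun k => ?_) summable_K3
  have h : ∀ j : Fin 3, 1 + (k j : ℝ) ^ 2 ≤ 1 + W785.DF.sq k := by
    intro j
    unfold W785.DF.sq
    have := Finset.single_le_sum (f := fun j : Fin 3 => (k j : ℝ) ^ 2)
      (fun i _ => sq_nonneg _) (Finset.mem_univ j)
    linarith
  have h0 := h 0
  have h1 := h 1
  have h2 := h 2
  have hs := one_le k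
  have e : (1 / (1 + (k 0 : ℝ) ^ 2)) * ((1 / (1 + (k 1 : ℝ) ^ 2)) * (1 / (1 + (k 2 : ℝ) ^ 2))) =
      ((1 + (k 0 : ℝ) ^ 2) * ((1 + (k 1 : ℝ) ^ 2) * (1 + (k 2 : ℝ) ^ 2)))⁻¹ := by
    rw [mul_inv, mul_inv, one_div, one_div, one_div]
  rw [e]
  unfold wg
  apply inv_anti₀ (by positivity)
  calc (1 + (k 0 : ℝ) ^ 2) * ((1 + (k 1 : ℝ) ^ 2) * (1 + (k 2 : ℝ) ^ 2))
      ≤ (1 + W785.DF.sq k) * ((1 + W785.DF.sq k) * (1 + W785.DF.sq k)) := by gcongr
    _ = _ := by ring

theorem peetre (k l : K3) : 1 + W785.DF.sq k ≤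
    2 * ((1 + W785.DF.sq l) * (1 + W785.DF.sq (k - l))) := by
  have h1 : W785.DF.sq k ≤ 2 * W785.DF.sq l + 2 * W785.DF.sq (k - l) := by
    unfold W785.DF.sq
    rw [Finset.mul_sum, Finset.mul_sum, ← Finset.sum_add_distrib]
    apply Finset.sum_le_sum
    intro j _
    have e : ((k - l) j : ℤ) = k j - l j := rfl
    rw [e]
    push_cast
    nlinarith [sq_nonneg ((k j : ℝ) - 2 * (l j : ℝ))]
  have h2 := sq_nonneg' l
  have h3 := sq_nonneg' (k - l)
  nlinarith [mul_nonneg h2 h3]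

/-! ### rapidly decreasing families -/

theorem RD.cst {c : ℝ → K3 → ℂ} (hc : RD c) (m : ℕ) (T : ℝ) :
    ∃ C : ℝ, 0 ≤ C ∧ ∀ t ∈ Icc 0 T, ∀ k, (1 + W785.DF.sq k) ^ m * ‖c t k‖ ≤ C := by
  obtain ⟨C, hC⟩ := hc.2 m T
  exact ⟨max C 0, le_max_right _ _, fun t ht k => (hC t ht k).trans (le_max_left _ _)⟩

theorem RD.add {c d : ℝ → K3 → ℂ} (hc : RD c) (hd : RD d) : RD fun t k => c t k + d t k := by
  refine ⟨fun k => (hc.1 k).add (hd.1 k), ?_⟩
  intro m T
  obtain ⟨C, hC⟩ := hc.2 m T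
  obtain ⟨D, hD⟩ := hd.2 m T
  refine ⟨C + D, fun t ht k => ?_⟩
  have h1 := hC t ht k
  have h2 := hD t ht k
  have h3 : 0 ≤ (1 + W785.DF.sq k) ^ m := by
    have := one_le k
    positivity
  have h4 := mul_le_mul_of_nonneg_left (norm_add_le (c t k) (d t k)) h3
  rw [mul_add] at h4
  linarith

theorem RD.mul {c : ℝ → K3 → ℂ} {μ : K3 → ℂ} {C0 : ℝ} {M : ℕ}
    (hμ : ∀ k, ‖μ k‖ ≤ C0 * (1 + W785.DF.sq k) ^ M) (hc : RD c) : RD fun t k => μ k * c t k := by
  refine ⟨fun k => continuousOn_const.mul (hc.1 k), ?_⟩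
  intro m T
  obtain ⟨C, hC0, hC⟩ := RD.cst hc (m + M) T
  have hC0' : 0 ≤ C0 := by
    have h1 := (norm_nonneg _).trans (hμ 0)
    have h2 : 0 < (1 + W785.DF.sq 0) ^ M := by
      have := one_le 0
      positivity
    by_contra h
    push Not at h
    have := mul_neg_of_neg_of_pos h h2
    linarith
  refine ⟨C0 * C, fun t ht k => ?_⟩
  have h1 := hC t ht k
  have h3 : 0 ≤ (1 + W785.DF.sq k) ^ m := by
    have := one_le k
    positivity
  rw [norm_mul]
  calc (1 + W785.DF.sq k) ^ m * (‖μ k‖ * ‖c t k‖)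
      ≤ (1 + W785.DF.sq k) ^ m * ((C0 * (1 + W785.DF.sq k) ^ M) * ‖c t k‖) := by
        apply mul_le_mul_of_nonneg_left _ h3
        exact mul_le_mul_of_nonneg_right (hμ k) (norm_nonneg _)
    _ = C0 * ((1 + W785.DF.sq k) ^ (m + M) * ‖c t k‖) := by rw [pow_add]; ring
    _ ≤ C0 * C := mul_le_mul_of_nonneg_left h1 hC0'

/-- bound of the terms of the convolution -/
theorem term_bound {c d : ℝ → K3 → ℂ} (hc : RD c) (hd : RD d) (T : ℝ) :
    ∃ u : K3 → ℝ, Summable u ∧ ∀ k l, ∀ t ∈ Icc 0 T, ‖c t l * d t (k - l)‖ ≤ u l := by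
  obtain ⟨C, hC0, hC⟩ := RD.cst hc 3 T
  obtain ⟨D, hD0, hD⟩ := RD.cst hd 0 T
  refine ⟨fun l => (C * D) * wg l, summable_wg.mul_left _, ?_⟩
  intro k l t ht
  have h1 := hC t ht l
  have h2 := hD t ht (k - l)
  rw [pow_zero, one_mul] at h2
  have h3 : 0 < (1 + W785.DF.sq l) ^ 3 := by
    have := one_le l
    positivity
  have h4 : ‖c t l‖ ≤ C * wg l := by
    unfold wg
    rw [← div_eq_mul_inv, le_div_iff₀ h3, mul_comm]
    exact h1
  rw [norm_mul]
  calc ‖c t l‖ * ‖d t (k - l)‖ ≤ (C * wg l) * D :=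
        mul_le_mul h4 h2 (norm_nonneg _) (mul_nonneg hC0 (wg_pos l).le)
    _ = _ := by ring

theorem summable_conv {c d : ℝ → K3 → ℂ} (hc : RD c) (hd : RD d) {t : ℝ} (ht : 0 ≤ t) (k : K3) :
    Summable fun l => c t l * d t (k - l) := by
  obtain ⟨u, hu, h⟩ := term_bound hc hd t
  exact Summable.of_norm_bounded hu (fun l => h k l t ⟨ht, le_rfl⟩)

theorem RD.conv {c d : ℝ → K3 → ℂ} (hc : RD c) (hd : RD d) :
    RD fun t k => ∑' l : K3, c t l * d t (k - l) := by
  refine ⟨?_, ?_⟩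
  · intro k t ht
    obtain ⟨u, hu, h⟩ := term_bound hc hd (t + 1)
    have h1 : ContinuousOn (fun s => ∑' l : K3, c s l * d s (k - l)) (Icc 0 (t + 1)) := by
      apply continuousOn_tsum (u := u) _ hu (fun l s hs => h k l s hs)
      intro l
      exact ((hc.1 l).mul (hd.1 (k - l))).mono Icc_subset_Ici_self
    have h2 : Icc 0 (t + 1) ∈ 𝓝[Ici 0] t := by
      have h3 : Iio (t + 1) ∈ 𝓝 t := Iio_mem_nhds (by linarith)
      filter_upwards [self_mem_nhdsWithin, mem_nhdsWithin_of_mem_nhds h3] with s hs1 hs2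
      exact ⟨hs1, hs2.le⟩
    exact (h1 t ⟨ht, by linarith⟩).mono_of_mem_nhdsWithin h2
  · intro m T
    obtain ⟨C, hC0, hC⟩ := RD.cst hc (m + 3) T
    obtain ⟨D, hD0, hD⟩ := RD.cst hd m T
    refine ⟨∑' l, (2 ^ m * C * D) * wg l, fun t ht k => ?_⟩
    have hpk : 0 ≤ (1 + W785.DF.sq k) ^ m := by
      have := one_le k
      positivity
    have hb : ∀ l, ‖((1 + W785.DF.sq k) ^ m : ℝ) • (c t l * d t (k - l))‖ ≤
        (2 ^ m * C * D) * wg l := by
      intro l
      have h1 := hC t ht l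
      have h2 := hD t ht (k - l)
      have hl := one_le l
      have hkl := one_le (k - l)
      have h3 : 0 < (1 + W785.DF.sq l) ^ 3 := by positivity
      have h4 : (1 + W785.DF.sq l) ^ m * ‖c t l‖ ≤ C * wg l := by
        unfold wg
        rw [← div_eq_mul_inv, le_div_iff₀ h3]
        calc (1 + W785.DF.sq l) ^ m * ‖c t l‖ * (1 + W785.DF.sq l) ^ 3
            = (1 + W785.DF.sq l) ^ (m + 3) * ‖c t l‖ := by rw [pow_add]; ring
          _ ≤ C := h1
      have h5 : (1 + W785.DF.sq k) ^ m ≤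
          2 ^ m * ((1 + W785.DF.sq l) ^ m * (1 + W785.DF.sq (k - l)) ^ m) := by
        rw [← mul_pow, ← mul_pow]
        have := one_le k
        exact pow_le_pow_left₀ (by linarith) (peetre k l) m
      rw [norm_smul, norm_mul, Real.norm_eq_abs, abs_of_nonneg hpk]
      calc (1 + W785.DF.sq k) ^ m * (‖c t l‖ * ‖d t (k - l)‖)
          ≤ (2 ^ m * ((1 + W785.DF.sq l) ^ m * (1 + W785.DF.sq (k - l)) ^ m)) *
            (‖c t l‖ * ‖d t (k - l)‖) :=
            mul_le_mul_of_nonneg_right h5 (by positivity)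
        _ = 2 ^ m * (((1 + W785.DF.sq l) ^ m * ‖c t l‖) *
            ((1 + W785.DF.sq (k - l)) ^ m * ‖d t (k - l)‖)) := by ring
        _ ≤ 2 ^ m * ((C * wg l) * D) := by
            apply mul_le_mul_of_nonneg_left _ (by positivity)
            exact mul_le_mul h4 h2 (by positivity) (mul_nonneg hC0 (wg_pos l).le)
        _ = _ := by ring
    have hsum : Summable fun l => (2 ^ m * C * D) * wg l := summable_wg.mul_left _
    have h6 := tsum_of_norm_bounded hsum.hasSum hb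
    rw [tsum_const_smul'', norm_smul, Real.norm_eq_abs, abs_of_nonneg hpk] at h6
    exact h6

/-- derivative of a sum -/
theorem deriv_tsum (g g' : K3 → ℝ → ℂ)
    (hd : ∀ l t, 0 ≤ t → HasDerivWithinAt (g l) (g' l t) (Ici 0) t)
    (hs : ∀ T : ℝ, ∃ u : K3 → ℝ, Summable u ∧ ∀ l, ∀ t ∈ Icc 0 T, ‖g' l t‖ ≤ u l)
    (hg : ∀ t, 0 ≤ t → Summable fun l => g l t) :
    ∀ t, 0 ≤ t → HasDerivWithinAt (fun s => ∑' l, g l s) (∑' l, g' l t) (Ici 0) t := by
  intro t ht
  obtain ⟨u, hu, hub⟩ := hs (t + 1)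
  rw [hasDerivWithinAt_iff_tendsto_slope]
  have hloc : ∀ᶠ s in 𝓝[Ici 0 \ {t}] t, s ∈ Icc 0 (t + 1) ∧ s ≠ t := by
    have h3 : Iio (t + 1) ∈ 𝓝 t := Iio_mem_nhds (by linarith)
    filter_upwards [self_mem_nhdsWithin, mem_nhdsWithin_of_mem_nhds h3] with s hs1 hs2
    exact ⟨⟨hs1.1, hs2.le⟩, hs1.2⟩
  have hbound : ∀ᶠ s in 𝓝[Ici 0 \ {t}] t, ∀ l, ‖slope (g l) t s‖ ≤ u l := by
    filter_upwards [hloc] with s hs l
    have h1 : ‖g l s - g l t‖ ≤ u l * ‖s - t‖ := by
      apply Convex.norm_image_sub_le_of_norm_hasDerivWithin_le (f := g l) (f' := fun t => g' l t)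
        (s := Icc 0 (t + 1)) _ (fun x hx => hub l x hx) (convex_Icc _ _)
        ⟨ht, by linarith⟩ hs.1
      intro x hx
      exact (hd l x hx.1).mono Icc_subset_Ici_self
    have h2 : 0 < ‖s - t‖ := norm_pos_iff.mpr (sub_ne_zero.mpr hs.2)
    rw [slope_def_module, norm_smul, norm_inv, inv_mul_le_iff₀ h2, mul_comm]
    exact h1
  have key := tendsto_tsum_of_dominated_convergence (f := fun s l => slope (g l) t s)
    (g := fun l => g' l t) hu
    (fun l => hasDerivWithinAt_iff_tendsto_slope.mp (hd l t ht)) hbound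
  refine key.congr' ?_
  filter_upwards [hloc] with s hs
  have h1 : ∀ l, slope (g l) t s = (s - t)⁻¹ • (g l s - g l t) := fun l => slope_def_module _ _ _
  simp only [h1]
  rw [slope_def_module, tsum_const_smul'', (hg s hs.1.1).tsum_sub (hg t ht)]

/-! ### the classes -/

theorem TC.rd : ∀ (n : ℕ) {c : ℝ → K3 → ℂ}, TC n c → RD c
  | 0, _, h => h
  | _ + 1, _, h => h.1

theorem TC.dec : ∀ (n : ℕ) (c : ℝ → K3 → ℂ), TC (n + 1) c → TC n c := by
  intro n
  induction n with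
  | zero => intro c h; exact h.1
  | succ n ih =>
    intro c h
    obtain ⟨h1, c', h2, h3⟩ := h
    exact ⟨h1, c', ih c' h2, h3⟩

theorem TC.add : ∀ (n : ℕ) (c d : ℝ → K3 → ℂ), TC n c → TC n d →
    TC n fun t k => c t k + d t k := by
  intro n
  induction n with
  | zero => intro c d hc hd; exact RD.add hc hd
  | succ n ih =>
    rintro c d ⟨h1, c', h2, h3⟩ ⟨g1, d', g2, g3⟩
    refine ⟨RD.add h1 g1, fun t k => c' t k + d' t k, ih c' d' h2 g2, ?_⟩
    intro t ht k
    exact (h3 t ht k).add (g3 t ht k)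

theorem TC.mul : ∀ (n : ℕ) (c : ℝ → K3 → ℂ) (m : K3 → ℂ) (C : ℝ) (M : ℕ),
    (∀ k, ‖m k‖ ≤ C * (1 + W785.DF.sq k) ^ M) → TC n c → TC n fun t k => m k * c t k := by
  intro n
  induction n with
  | zero => intro c m C M hm hc; exact RD.mul hm hc
  | succ n ih =>
    rintro c m C M hm ⟨h1, c', h2, h3⟩
    refine ⟨RD.mul hm h1, fun t k => m k * c' t k, ih c' m C M hm h2, ?_⟩
    intro t ht k
    exact (h3 t ht k).const_mul (m k)

theorem TC.conv : ∀ (n : ℕ) (c d : ℝ → K3 → ℂ), TC n c → TC n d →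
    TC n fun t k => ∑' l : K3, c t l * d t (k - l) := by
  intro n
  induction n with
  | zero => intro c d hc hd; exact RD.conv hc hd
  | succ n ih =>
    intro c d hc hd
    have hcn := TC.dec n c hc
    have hdn := TC.dec n d hd
    obtain ⟨h1, c', h2, h3⟩ := hc
    obtain ⟨g1, d', g2, g3⟩ := hd
    have hc' := TC.rd n h2
    have hd' := TC.rd n g2
    refine ⟨RD.conv h1 g1, fun t k => (∑' l : K3, c' t l * d t (k - l)) +
      ∑' l : K3, c t l * d' t (k - l), TC.add n _ _ (ih c' d h2 hdn) (ih c d' hcn g2), ?_⟩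
    intro t ht k
    have key := deriv_tsum (fun l s => c s l * d s (k - l))
      (fun l s => c' s l * d s (k - l) + c s l * d' s (k - l))
      (fun l s hs => (h3 s hs l).mul (g3 s hs (k - l)))
      (by
        intro T
        obtain ⟨u, hu, hu'⟩ := term_bound hc' g1 T
        obtain ⟨v, hv, hv'⟩ := term_bound h1 hd' T
        refine ⟨fun l => u l + v l, hu.add hv, fun l s hs => ?_⟩
        exact (norm_add_le _ _).trans (add_le_add (hu' k l s hs) (hv' k l s hs)))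
      (fun s hs => summable_conv h1 g1 hs k) t ht
    rw [(summable_conv hc' g1 ht k).tsum_add (summable_conv h1 hd' ht k)] at key
    exact key

theorem proof : S_tc := ⟨TC.add, TC.mul, TC.conv, TC.dec⟩

end Pool.Agent.W174.DD
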